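import Pool.Agent.COSB.StmtsE
import Pool.Agent.Helper94_COSB.TME
import Pool.Agent.Helper94_COSB.TMP

/-!
# Squad COSB, row RSM: restriction of scalars, the machine part
-/

set_option autoImplicit false

namespace Pool.Agent.COSB.H26

open Turing Computability Pool.Agent.UT.Num Pool.Agent.H2XG Pool.Agent.PAR Pool.Agent.COS

/-! ### Words of blocks -/

/-- the concatenation of the words `f 0`, ..., `f (k - 1)` -/
def cW (f : ℕ → Word) : ℕ → Word
  | 0 => []
  | k + 1 => cW f k ++ f k

theorem len_cW (f : ℕ → Word) (b : ℕ) (k : ℕ) (h : ∀ q < k, (f q).length ≤ b) :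
    (cW f k).length ≤ k * b := by
  induction k with
  | zero => simp [cW]
  | succ k ih =>
    have h1 := ih fun q hq => h q (by omega)
    have h2 := h k (by omega)
    have h3 : (k + 1) * b = k * b + b := by ring
    unfold cW
    rw [List.length_append, h3]
    omega

theorem cW_eq (f g : ℕ → Word) (b : ℕ) (k : ℕ) (hf : ∀ q < k, (f q).length = b)
    (hg : ∀ q < k, (g q).length = b) : cW f k = cW g k ↔ ∀ q < k, f q = g q := by
  induction k with
  | zero => simp [cW]
  | succ k ih =>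
    have h1 := ih (fun q hq => hf q (by omega)) fun q hq => hg q (by omega)
    unfold cW
    constructor
    · intro h
      have h2 := List.append_inj' h ((hf k (by omega)).trans (hg k (by omega)).symm)
      intro q hq
      rcases Nat.lt_succ_iff_lt_or_eq.1 hq with hq | hq
      · exact h1.1 h2.1 q hq
      · rw [hq]; exact h2.2
    · intro h
      rw [h1.2 fun q hq => h q (by omega), h k (by omega)]

/-- the number of an entry -/
def pos (s N i j q : ℕ) : ℕ := (i * s + q / s) * N + (j * s + q % s)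

/-- the word of the block `(i, j)` -/
def uW (b s N : ℕ) (y : Word) (i j : ℕ) : Word :=
  cW (fun q => blW b y (pos s N i j q)) (s * s)

/-- the words of the entries of a small matrix -/
def eW (p s : ℕ) (X : Matrix (Fin s) (Fin s) (ZMod (p ^ 1))) (q : ℕ) : Word :=
  if h : q < s * s then cod p 1 (X (Fin.divNat ⟨q, h⟩) (Fin.modNat ⟨q, h⟩)) else []

/-- the word of a small matrix -/
def tW (p s : ℕ) (X : Matrix (Fin s) (Fin s) (ZMod (p ^ 1))) : Word := cW (eW p s X) (s * s)

theorem len_cod (p : ℕ) (a : ZMod (p ^ 1)) : (cod p 1 a).length = db p := by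
  unfold cod
  rw [List.range_one, List.flatMap_singleton, List.length_map, List.length_range]

theorem cod_inj {p : ℕ} (hp : p.Prime) {a a' : ZMod (p ^ 1)} (h : cod p 1 a = cod p 1 a') :
    a = a' := by
  have : NeZero (p ^ 1) := ⟨by rw [pow_one]; exact hp.ne_zero⟩
  have hv : ∀ a : ZMod (p ^ 1), a.val < p := fun a => lt_of_lt_of_eq (ZMod.val_lt a) (pow_one p)
  have e : ∀ a : ZMod (p ^ 1), cod p 1 a = H94.bts (db p) a.val := by
    intro a
    unfold cod H94.bts
    rw [List.range_one, List.flatMap_singleton, pow_zero, Nat.div_one, Nat.mod_eq_of_lt (hv a)]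
  rw [e, e] at h
  apply ZMod.val_injective
  apply Nat.eq_of_testBit_eq
  intro t
  by_cases ht : t < db p
  · rw [← H94.getD_bts ht, h, H94.getD_bts ht]
  · have h1 : ∀ a : ZMod (p ^ 1), a.val.testBit t = false := fun a =>
      Nat.testBit_lt_two_pow (lt_of_lt_of_le (H94.lt_two_pow_db (hv a))
        (Nat.pow_le_pow_right (by norm_num) (not_lt.1 ht)))
    rw [h1, h1]

theorem len_eW (p s : ℕ) (X : Matrix (Fin s) (Fin s) (ZMod (p ^ 1))) (q : ℕ) (hq : q < s * s) :
    (eW p s X q).length = db p := by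
  unfold eW
  rw [dif_pos hq, len_cod]

theorem eW_pos (p s : ℕ) (X : Matrix (Fin s) (Fin s) (ZMod (p ^ 1))) (a a' : Fin s) :
    eW p s X (a * s + a') = cod p 1 (X a a') := by
  have h := COS.H13.pos_lt a.2 a'.2
  have h1 : Fin.divNat (⟨(a : ℕ) * s + a', h⟩ : Fin (s * s)) = a :=
    Fin.ext (COS.H13.div_eq a'.2)
  have h2 : Fin.modNat (⟨(a : ℕ) * s + a', h⟩ : Fin (s * s)) = a' :=
    Fin.ext (COS.H13.mod_eq a'.2)
  unfold eW
  rw [dif_pos h, h1, h2]

theorem tW_inj {p s : ℕ} (hp : p.Prime) {X X' : Matrix (Fin s) (Fin s) (ZMod (p ^ 1))}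
    (h : tW p s X = tW p s X') : X = X' := by
  unfold tW at h
  rw [cW_eq _ _ (db p) _ (fun q hq => len_eW p s X q hq) (fun q hq => len_eW p s X' q hq)] at h
  ext a a'
  have h1 := h (a * s + a') (COS.H13.pos_lt a.2 a'.2)
  rw [eW_pos, eW_pos] at h1
  exact cod_inj hp h1

theorem blk_enc {p N : ℕ} (M : Matrix (Fin N) (Fin N) (ZMod (p ^ 1))) {i j : ℕ}
    (hi : i < N) (hj : j < N) :
    blW (db p) (encP p 1 N M) (i * N + j) = cod p 1 (M ⟨i, hi⟩ ⟨j, hj⟩) := by
  have h := COS.H13.pos_lt hi hj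
  have h1 : Fin.divNat (⟨i * N + j, h⟩ : Fin (N * N)) = ⟨i, hi⟩ := Fin.ext (COS.H13.div_eq hj)
  have h2 : Fin.modNat (⟨i * N + j, h⟩ : Fin (N * N)) = ⟨j, hj⟩ := Fin.ext (COS.H13.mod_eq hj)
  refine (H94E.blW_fl' (N * N) (fun r => cod p 1 (M r.divNat r.modNat))
    (fun r => len_cod p _) _ h).trans ?_
  rw [h1, h2]

theorem ps_lt {n s : ℕ} (i : Fin n) (a : Fin s) : (i : ℕ) * s + a < n * s := by
  have hi := i.2
  have ha := a.2
  calc (i : ℕ) * s + a < i * s + s := by omega
    _ = (i + 1) * s := by ring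
    _ ≤ n * s := Nat.mul_le_mul_right s hi

/-- the key: equality of words -/
theorem key {p n s : ℕ} (hp : p.Prime) (B : Matrix (Fin (n * s)) (Fin (n * s)) (ZMod (p ^ 1)))
    (i j : Fin n) (X : Matrix (Fin s) (Fin s) (ZMod (p ^ 1))) :
    tW p s X = uW (db p) s (n * s) (encP p 1 (n * s) B) i j ↔
      ∀ a a' : Fin s, B ⟨i * s + a, ps_lt i a⟩ ⟨j * s + a', ps_lt j a'⟩ = X a a' := by
  have hb : ∀ q (hq : q < s * s), blW (db p) (encP p 1 (n * s) B) (pos s (n * s) i j q) =
      cod p 1 (B ⟨i * s + (Fin.divNat (⟨q, hq⟩ : Fin (s * s)) : ℕ), ps_lt i _⟩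
        ⟨j * s + (Fin.modNat (⟨q, hq⟩ : Fin (s * s)) : ℕ), ps_lt j _⟩) := by
    intro q hq
    exact blk_enc B (ps_lt i (Fin.divNat (⟨q, hq⟩ : Fin (s * s))))
      (ps_lt j (Fin.modNat (⟨q, hq⟩ : Fin (s * s))))
  unfold tW uW
  rw [cW_eq _ _ (db p) _ (fun q hq => len_eW p s X q hq) fun q hq => by rw [hb q hq, len_cod]]
  constructor
  · intro h a a'
    have h1 := h (a * s + a') (COS.H13.pos_lt a.2 a'.2)
    rw [eW_pos] at h1
    have h2 : pos s (n * s) i j (a * s + a') = (i * s + a) * (n * s) + (j * s + a') := by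
      unfold pos
      rw [COS.H13.div_eq a'.2, COS.H13.mod_eq a'.2]
    have h3 := blk_enc B (ps_lt i a) (ps_lt j a')
    rw [h2, h3] at h1
    exact (cod_inj hp h1).symm
  · intro h q hq
    rw [hb q hq, h]
    unfold eW
    rw [dif_pos hq]

/-! ### The machine -/

section machine

variable (hT : TblStmt) {m b s : ℕ} {N n i j : (Fin m → List K) → ℕ}
  {x y : (Fin m → List K) → Word}

theorem uWF (hN : FPN m N) (hy : FPW m y) (hi : FPN m i) (hj : FPN m j) (k : ℕ) :
    FPW m (fun ρ => cW (fun q => blW b (y ρ) (pos s (N ρ) (i ρ) (j ρ) q)) k) := by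
  induction k with
  | zero => exact FPW.const []
  | succ k ih =>
    exact FPW.append ih (H50.blF (FPN.const b) hy
      (FPN.add (FPN.mul (FPN.add (FPN.mul hi (FPN.const s)) (FPN.const (k / s))) hN)
        (FPN.add (FPN.mul hj (FPN.const s)) (FPN.const (k % s)))))

theorem len_uW (N : ℕ) (y : Word) (i j : ℕ) : (uW b s N y i j).length ≤ s * s * b := by
  refine len_cW _ _ _ fun q _ => ?_
  unfold blW
  exact List.length_take_le _ _

/-- all blocks are words of elements -/
def okA (ok : Word → Bool) (b s n N : ℕ) (y : Word) : Bool :=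
  decide (∀ t < n * n, ok (uW b s N y (t / n) (t % n)) = true)

/-- the word of the matrix over the field -/
def zW (g : Word → Word) (b s n N : ℕ) (y : Word) : Word :=
  (List.range (n * n)).flatMap fun t => g (uW b s N y (t / n) (t % n))

/-- the predicate -/
def rV (V : Word × Word → Bool) (ok : Word → Bool) (g : Word → Word) (b s n N : ℕ)
    (x y : Word) : Bool := okA ok b s n N y && V (x, zW g b s n N y)

include hT

theorem okAF (ok : Word → Bool) (hn : FPN m n) (hN : FPN m N) (hy : FPW m y) :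
    FPB m (fun ρ => okA ok b s (n ρ) (N ρ) (y ρ)) :=
  FPB.all (FPN.mul hn hn) (b := fun t ρ => ok (uW b s (N ρ) (y ρ) (t / n ρ) (t % n ρ)))
    (hT.2.1 (m + 1) (s * s * b) ok _
      (uWF (FPN.weak hN) (FPW.weak hy) (FPN.div FPN.v0 (FPN.weak hn))
        (FPN.mod FPN.v0 (FPN.weak hn)) (s * s)) fun _ => len_uW _ _ _ _)

theorem zWF (g : Word → Word) (hn : FPN m n) (hN : FPN m N) (hy : FPW m y) :
    FPW m (fun ρ => zW g b s (n ρ) (N ρ) (y ρ)) := by
  have h : FPW (m + 1) (fun σ => g (uW b s (N fun i => σ i.succ) (y fun i => σ i.succ)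
      ((σ 0).length / n fun i => σ i.succ) ((σ 0).length % n fun i => σ i.succ))) :=
    hT.1 (m + 1) (s * s * b) g _
      (uWF (FPN.weak hN) (FPW.weak hy) (FPN.div FPN.v0 (FPN.weak hn))
        (FPN.mod FPN.v0 (FPN.weak hn)) (s * s)) fun _ => len_uW _ _ _ _
  exact FP.congr (FP.rangeFlatMap (FPN.mul hn hn) (F := fun t ρ =>
    (g (uW b s (N ρ) (y ρ) (t / n ρ) (t % n ρ))).map K.a) h) fun ρ => by
      unfold zW
      rw [List.map_flatMap]

theorem rVF {V : Word × Word → Bool} (hV : PolyPair V) (ok : Word → Bool) (g : Word → Word)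
    (hn : FPN m n) (hN : FPN m N) (hx : FPW m x) (hy : FPW m y) :
    FPB m (fun ρ => rV V ok g b s (n ρ) (N ρ) (x ρ) (y ρ)) :=
  FPB.and (okAF hT ok hn hN hy) (FPB.call2 hV hx (zWF hT g hn hN hy))

end machine

/-! ### Correctness -/

theorem fin_range (m : ℕ) (f : ℕ → Word) :
    (List.finRange m).flatMap (fun r : Fin m => f (r : ℕ)) = (List.range m).flatMap f := by
  rw [← List.map_coe_finRange_eq_range, List.flatMap_map]

theorem corr {E : Type} [Field E] (c : E → Word) {p s n : ℕ}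
    (θ : E → Matrix (Fin s) (Fin s) (ZMod (p ^ 1))) (hp : p.Prime) (hs : 0 < s)
    (hθ : Function.Injective θ) (V : Word × Word → Bool) (x : Word)
    (B : Matrix (Fin (n * s)) (Fin (n * s)) (ZMod (p ^ 1))) :
    rV V (H94E.okC fun e => tW p s (θ e)) (fun w => c (H94E.dE (fun e => tW p s (θ e)) w))
      (db p) s n (n * s) x (encP p 1 (n * s) B) = true ↔
        ∃ A : Matrix (Fin n) (Fin n) E, V (x, encE c A) = true ∧
          ∀ r t : Fin (n * s), B r t = θ (A r.divNat t.divNat) r.modNat t.modNat := by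
  have hinj : Function.Injective fun e => tW p s (θ e) := fun e e' h => hθ (tW_inj hp h)
  set y := encP p 1 (n * s) B with hy
  set A0 : Matrix (Fin n) (Fin n) E := fun i j =>
    H94E.dE (fun e => tW p s (θ e)) (uW (db p) s (n * s) y i j) with hA0
  have hz : zW (fun w => c (H94E.dE (fun e => tW p s (θ e)) w)) (db p) s n (n * s) y =
      encE c A0 := by
    unfold zW encE
    rw [← fin_range]
    rfl
  have hok : okA (H94E.okC fun e => tW p s (θ e)) (db p) s n (n * s) y = true ↔
      ∀ i j : Fin n, ∃ e, tW p s (θ e) = uW (db p) s (n * s) y i j := by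
    unfold okA
    rw [decide_eq_true_iff]
    constructor
    · intro h i j
      have h1 := h (i * n + j) (COS.H13.pos_lt i.2 j.2)
      rw [COS.H13.div_eq j.2, COS.H13.mod_eq j.2, H94E.okC_iff] at h1
      exact h1
    · intro h t ht
      rw [H94E.okC_iff]
      have hn : 0 < n := by
        rcases Nat.eq_zero_or_pos n with h0 | h0
        · rw [h0] at ht; omega
        · exact h0
      exact h ⟨t / n, Nat.div_lt_of_lt_mul ht⟩ ⟨t % n, Nat.mod_lt _ hn⟩
  have hr : ∀ r : Fin (n * s), (⟨(r.divNat : ℕ) * s + (r.modNat : ℕ), ps_lt _ _⟩ :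
      Fin (n * s)) = r := by
    intro r
    apply Fin.ext
    show (r : ℕ) / s * s + (r : ℕ) % s = r
    exact Nat.div_add_mod' _ _
  unfold rV
  rw [Bool.and_eq_true, hok, hz]
  constructor
  · rintro ⟨h1, h2⟩
    refine ⟨A0, h2, fun r t => ?_⟩
    obtain ⟨e, he⟩ := h1 r.divNat t.divNat
    have h3 : A0 r.divNat t.divNat = e := by
      rw [hA0]
      beta_reduce
      rw [← he]
      exact H94E.dE_c hinj e
    rw [h3]
    have h4 := (key hp B r.divNat t.divNat (θ e)).1 he r.modNat t.modNat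
    rw [hr, hr] at h4
    exact h4
  · rintro ⟨A, h1, h2⟩
    have h3 : ∀ i j : Fin n, tW p s (θ (A i j)) = uW (db p) s (n * s) y i j := by
      intro i j
      refine (key hp B i j (θ (A i j))).2 fun a a' => ?_
      rw [h2]
      have e1 : ∀ (i : Fin n) (a : Fin s), Fin.divNat (⟨i * s + a, ps_lt i a⟩ : Fin (n * s)) = i :=
        fun i a => Fin.ext (COS.H13.div_eq a.2)
      have e2 : ∀ (i : Fin n) (a : Fin s), Fin.modNat (⟨i * s + a, ps_lt i a⟩ : Fin (n * s)) = a :=
        fun i a => Fin.ext (COS.H13.mod_eq a.2)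
      rw [e1, e1, e2, e2]
    have h4 : A0 = A := by
      ext i j
      rw [hA0]
      beta_reduce
      rw [← h3 i j]
      exact H94E.dE_c hinj _
    exact ⟨fun i j => ⟨_, h3 i j⟩, by rw [h4]; exact h1⟩

/-- **RSM** -/
theorem rsm (hT : TblStmt) : RsmStmt := by
  intro E _ _ c p s θ hp hs hθ V d hV
  refine ⟨fun z => rV V (H94E.okC fun e => tW p s (θ e))
    (fun w => c (H94E.dE (fun e => tW p s (θ e)) w)) (db p) s (d.eval z.1.length)
    (d.eval z.1.length * s) z.1 z.2, polyPair_of' (g := fun x y => rV V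
      (H94E.okC fun e => tW p s (θ e)) (fun w => c (H94E.dE (fun e => tW p s (θ e)) w)) (db p) s
      (d.eval x.length) (d.eval x.length * s) x y) fun _ _ _ hA hB =>
    rVF hT hV _ _ (FPN.poly (FPW.len hA) d) (FPN.mul (FPN.poly (FPW.len hA) d) (FPN.const s))
      hA hB, ?_⟩
  intro x n hn B
  subst hn
  exact corr c θ hp hs hθ V x B

end Pool.Agent.COSB.H26
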